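import Pool.Agent.E14.SKDef
import Pool.Agent.E14.CP.Fin

/-!
# The kernel of `colim K₁(R[H]) → K₁(R[G])` for all commutative rings `R` and all groups `G`

For every commutative ring `R` and every group `G` the kernel of the canonical map
`colim K₁(R[H]) → K₁(R[G])`, the colimit being over the finite subgroups `H` of `G` (and the maps
given by conjugation with elements of `G`), is, after tensoring with the rational numbers, contained
in the part coming from the groups `SK₁(R[C])` of the finite cyclic subgroups `C`. The map is
rationally injective if `R` is semilocal, or if the finitely generated subrings of `R` have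
dimension at most one, in particular if `R` is a domain of characteristic zero which is algebraic
over `ℤ`. There is no hypothesis on `G`; `R` need not be reduced, and no primes are inverted in `R`.

The definitions are in `Pool.Agent.Y69.WhDef` (`K1`), `Pool.Agent.Y69.TK.KDef` (`ColimK1`,
`assembly`) and `Pool.Agent.E14.SKDef` (`SKPart`).
-/

/-- For every commutative ring `R` and every group `G`, an element of `colim K₁(R[H])` (colimit over
the finite subgroups `H` of `G`) whose image in `K₁(R[G])` has finite order has a positive multiple
in the `SK₁` part. It has finite order if `R` is semilocal, or if all finitely generated subrings of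
`R` have dimension at most one, or if `R` is an integral domain of characteristic zero which is
algebraic over `ℤ`. -/
theorem Pool.Agent.Results.MP_6374fb_al.KernelSK1.result
    (R G : Type) [CommRing R] [Group G] (x : Pool.Agent.Y69.FJK.ColimK1 R G) (n : ℕ) (hn : 0 < n)
    (hx : n • Pool.Agent.Y69.FJK.assembly R G x = 0) :
    (∃ l : ℕ, 0 < l ∧ l • x ∈ Pool.Agent.E14.SK.SKPart R G) ∧
    (Finite (MaximalSpectrum R) ∨
      (∀ s : Finset R, Ring.KrullDimLE 1 (Subring.closure (s : Set R))) ∨
      (IsDomain R ∧ CharZero R ∧ Algebra.IsAlgebraic ℤ R) → ∃ l : ℕ, 0 < l ∧ l • x = 0) :=
  Pool.Agent.E14.CP.final x n hn hx
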