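import Pool.Agent.H40E9.LP.Inf

/-!
# General linear groups of Leavitt path algebras of graphs with disjoint cycles

`C` is any class of groups with the closure properties `ClosedE C`, all of which are known for the
class of the groups that satisfy the K-theoretic Farrell–Jones conjecture with coefficients in
additive categories and with finite wreath products.

Let `K` be a field such that all groups `GL_n(K[X])` are in `C` (for the class above this is known if
`K` is finite, or algebraic over a finite field: these are directed unions of arithmetic groups). Let
`E` be a directed graph, finite or infinite, in which every vertex is on at most one cycle; for finite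
graphs this is the condition that the Leavitt path algebra has finite Gelfand–Kirillov dimension.
Then all groups `GL_n(A)`, `n ≥ 1`, are in `C` for `A` the Leavitt path algebra of `E` over `K` (with a
unit adjoined, if `E` has infinitely many vertices), for the Cohn path algebra of `E`, and for all
their quotients: `A` may be any ring which is generated by `K` and by a family of elements `p v`,
`s e`, `t e` that satisfy the relations of a Cohn path algebra. For instance, `A` may be the algebra
`K⟨x, y | y x = 1⟩` of Jacobson (the Toeplitz algebra).

This is derived from a theorem on extensions of rings: if `I` is a two-sided ideal of a ring `A` such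
that every finite subset of `I` lies in `e A e` for an idempotent `e` with all `GL_n(e A e)` in `C`, and
if all groups `GL_n(A / I)` are in `C`, then so are all groups `GL_n(A)`.

Outline of the proof. The kernel of `GL_n(A) → GL_n(A / I)` is locally supported by the idempotents
`e`, and the conjugation by an element of `GL_n(A)` on a finite subset of the kernel is realized in
`GL_{2n}(e A e)` (stable conjugation by elementary matrices), so the realization criterion applies.
For the algebras of a finite graph one uses induction on the number of the vertices `v` with `p v ≠ 0`
and of those with `q v = p v - ∑ s e t e ≠ 0`. If some `q v` is not zero, let `w = q v`; the corner `w A w`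
is `K w`. Otherwise there is a cycle without exits, let `w` be the sum of its vertices; then `w A w` is a
finitely generated module over the image of `K[X]` under `X ↦ S + T`, where `S`, `T` are the shift
along the cycle and its inverse. So `GL_n(w A w)` is a group of automorphisms of a finitely generated
module over the principal ideal domain `K[X]`, and all such groups are in `C`. The ideal generated by
`w` has local units `∑ s_λ w t_λ`, the sum over finite sets of paths `λ` which enter the support of
`w` only at their end, and the corners given by them embed in matrix rings over `w A w`. Infinite
graphs are treated by directed unions.
-/

set_option autoImplicit false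

namespace Pool.Agent.Results.MP_6374fb_al.LeavittPathAlgebras

open Pool.Agent.Y110.FJ Pool.Agent.H40E9.FK Pool.Agent.H40E9.LP

/-- Every finite subset of the kernel of `π` is contained in `e A e` for an idempotent `e` such that all
groups `GL_n(e A e)` are in `C`. -/
def KernelHasLocalUnits (C : ∀ (G : Type) [Group G], Prop) {A B : Type} [Ring A] [Ring B]
    (π : A →+* B) : Prop :=
  ∀ T : Set A, T.Finite → (∀ t ∈ T, π t = 0) →
    ∃ e : A, e * e = e ∧ CornerGLs C e ∧ ∀ t ∈ T, e * t = t ∧ t * e = t

/-- Let `C` be a class of groups with the closure properties `ClosedE C`, and let `GLs C A` be the
statement that all groups `GL_n(A)` are in `C`.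
(1) Let `π` be a homomorphism from the ring `A` to the ring `B` with `GLs C B`, whose kernel has
local units with all `GL_n(e A e)` in `C`. Then `GLs C A`.
(2) Let `K` be a field with `GLs C K[X]`. Let `src`, `rng` define a directed graph with disjoint cycles
and let `F` be a family of elements `p v`, `s e`, `t e` of the `K`-algebra `A` which satisfies the
relations of the Cohn path algebra of the graph and generates `A`. Then `GLs C A`. -/
theorem result (C : ∀ (G : Type) [Group G], Prop) (hC : ClosedE C) :
    (∀ (A B : Type) [Ring A] [Ring B] (π : A →+* B), GLs C B → KernelHasLocalUnits C π →
      GLs C A) ∧
    (∀ (K V Ed A : Type) [Field K] [Ring A] (src rng : Ed → V) (F : Fam K src rng A),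
      GLs C (Polynomial K) → DisjointCycles src rng → Subring.closure F.gens = ⊤ → GLs C A) :=
  ⟨fun _ _ _ _ π hB h => ext_ring hC π hB h,
    fun _ _ _ _ _ _ _ _ F hK hD hgen => F.gls_of_disjoint hC hK hD hgen⟩

end Pool.Agent.Results.MP_6374fb_al.LeavittPathAlgebras
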