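import Pool.Agent.H40E9.TR.Pub

/-!
# The group of polynomial automorphisms of the affine plane

`C` is any class of groups with the closure properties `ClosedT C`, all of which are known for the
class of the groups that satisfy the K-theoretic Farrell–Jones conjecture with coefficients in
additive categories and with finite wreath products: the closure properties `ClosedE C` of the
starting library, and closure under acylindrical actions on trees with stabilizers of the vertices in
`C` (theorem of Knopf). Let `K` be a field of characteristic zero such that all groups `GL_n(K)` are in
`C`; for the class above this is known if `K` is algebraic over `ℚ` (Rüping). Then the group generated
by the affine bijections

  `(x, y) ↦ (a x + b y + c, a' x + b' y + c')`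

and the triangular bijections

  `(x, y) ↦ (a x + p(y), b y + c)`, `p` a polynomial,

of the plane `K × K` is in `C`. By the theorem of Jung this is the group of all polynomial automorphisms
of the affine plane over `K`, the automorphism group of the polynomial ring `K[x, y]` (which is also
isomorphic to the automorphism group of the free associative algebra in two variables). All its
subgroups are in `C` as well, for instance the automorphism groups of `R[x, y]` for the subrings `R` of
`K`, such as `ℤ[x, y]`.

Outline of the proof. A finitely generated subgroup has coefficients in a finitely generated field
`F ⊆ K`. Let `A`, `J` be the groups of the affine and the triangular bijections with coefficients in `F`,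
and let `G` be the group generated by them. Degrees along the diagonal give a ping-pong for `A` and `J`,
so that the coset graph of `A` and `J` is a tree `T`. Let `h` be an element of `G` which fixes a segment
of length at least `7`; after a conjugation, and conjugated by the elements which lead from one edge to
the next, it gives a sequence of elements `(α x + β y + γ, δ y + ε)` of `A ∩ J`. At an affine vertex `α`
and `δ` are exchanged, and `β = 0` if they are equal. At a triangular vertex with a polynomial of degree
`n ≥ 2` we have `α = δ ^ n`, and if `α = δ = 1` and `β = 0` then `ε = 0`, because in characteristic zero a
polynomial of degree at least two is not periodic up to constants. So `δ` is a root of unity, of order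
dividing `n n' - 1`, and it determines `h`. As `F` is finitely generated it has only finitely many roots
of unity: this follows from the irreducibility of the cyclotomic polynomials by specialization of a
transcendence basis. So the action on `T` is acylindrical. The groups `A` and `J` are in `C` because `A`
and every finitely generated subgroup of `J` act on finite-dimensional spaces of polynomials.
-/

set_option autoImplicit false

namespace Pool.Agent.Results.MP_6374fb_al.PlaneAutomorphisms

open Pool.Agent.H40E9.TR

/-- Let `C` be a class of groups with the closure properties `ClosedT C`, and let `K` be a field of
characteristic zero such that all groups `GL_n(K)` are in `C`. Then the group of permutations of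
`K × K` generated by the affine and the triangular bijections is in `C`. -/
theorem result (C : ∀ (G : Type) [Group G], Prop) (hC : ClosedT C) (K : Type) [Field K] [CharZero K]
    (hK : ∀ n : ℕ, C (GL (Fin n) K)) : C ↥(PlaneGroup K) :=
  C_planeGroup hC hK

end Pool.Agent.Results.MP_6374fb_al.PlaneAutomorphisms
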