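import Pool.Agent.E14.RE.Fi

/-!
# Graphs of groups with virtually cyclic edge groups

`C` is any class of groups with the closure properties `ClosedE C` which contains the metabelian groups
and satisfies `AcylF C`: a finitely generated group that acts acylindrically and without inversions on
a tree is in `C` if the vertex stabilizers are in `C`. All this is known for the class of the groups
whose wreath products with finite groups satisfy the K-theoretic Farrell–Jones conjecture with
coefficients in additive categories (the metabelian groups are due to Wegner, `AcylF` is a theorem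
of Knopf).

For an element `e` of infinite order of a group `K` let `Com(e)` be the commensurator of `⟨e⟩`, `Z(e)`
the centralizer, and `Rad(e)` the subgroup generated by the elements which have a nontrivial power in
common with `e`. The class `Central C` consists of the groups `K` in `C` such that `Z(e) ⧸ ⟨e⟩` is in `C`
for all `e` of infinite order. The class `Tame C` consists of the groups in `Central C` such that
moreover `Com(e) ⧸ Rad(e)` is in `C`, and `e` has infinite order in the abelianization of `Rad(e)`.

The theorem is on groups `G` which act without inversions on a tree with virtually cyclic edge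
stabilizers. The actions need not be acylindrical or cocompact, the edge groups may be finite of
unbounded order, and cyclic groups may be conjugate to proper subgroups in `G`, as in the
Baumslag–Solitar groups.

* If the vertex stabilizers are in `Tame C`, then `G` is in `Tame C`. So the construction can be
  iterated.
* If the vertex stabilizers are in `Central C`, and the elements `x` of infinite order of the edge
  groups are balanced in `G` (`g x ^ p g⁻¹ = x ^ q` only for `q = ± p`) or satisfy the additional
  conditions of `Tame C` in the vertex groups, then `G` is in `Central C`.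

The class `Central C` contains the virtually solvable groups, and the hyperbolic groups if they
are in `C`. It is closed under overgroups of finite index, and it is sufficient to consider the centralizers of
the elements of infinite order. The class `Tame C` contains the locally nilpotent and the virtually
abelian groups, and the virtually solvable groups with unique roots. It contains all groups in `C` for
which the commensurators `Com(e)` are contained in subgroups that are in `Tame C`; these are for instance
the hyperbolic groups, and the groups hyperbolic relative to locally nilpotent subgroups.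

If the vertex groups are virtually cyclic, this is a theorem of Wu, and for infinite cyclic edge groups
and abelian vertex groups it is due to Gandini, Meinert and Rüping. For nilpotent vertex groups, the edge
groups are in general trivial in the homology of the vertex groups, even in that of the centralizers.

Outline of the proof. Two edges are equivalent if their stabilizers have a common infinite subgroup.
The tree of cylinders of this relation is acylindrical for finitely generated subgroups, and so the
commensurators `K = Com(e)` of elements `e` of edge groups have to be treated. Let `L` be the subgroup of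
the elements of `K` which commute with a nontrivial power of `e`. Finitely generated subgroups of `L` are
contained in centralizers `Z(e ^ N)`, and `Z(e ^ N) ⧸ ⟨e ^ N⟩` acts with finite edge groups on the tree of
the fixed vertices of `e ^ N`. In the balanced case `L` has index at most two in `K`. In the other case
`K ⧸ Rad(e)` is in `C` because the group `Rad(e)` intersects the vertex groups `G v` in the groups `Rad` of
`G v`, which contain the edge groups in `L`: homomorphisms on the vertex groups of a transversal
which are trivial on these subgroups can be glued. The normalized rational characters of the groups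
`Rad` of the vertex groups can be glued too, and give a character of `Rad(e)` which is nontrivial
on `e`. Its kernel `D` is normal in `K`, intersects the edge groups in finite groups, and `K ⧸ D` is in
`C`. The preimages in `K` of the cyclic subgroups of `K ⧸ D` are contained in `L` or act with finite edge
groups. The commensurators and centralizers of hyperbolic elements act on the axis.
-/

set_option autoImplicit false

namespace Pool.Agent.Results.MP_6374fb_al.VirtuallyCyclicSplittings

open Pool.Agent.Y110.FJ (ClosedE)
open Pool.Agent.N509.TX (AcylF)

/-- the quotient of the group `K` by its subgroup `N` is in `C` -/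
def QuotIn (C : ∀ (G : Type) [Group G], Prop) {K : Type} [Group K] (N : Subgroup K) : Prop :=
  ∃ (P : Type) (_ : Group P) (f : K →* P), C P ∧ f.ker = N

/-- `e` has infinite order -/
def InfiniteOrder {G : Type} [Group G] (e : G) : Prop := ∀ m : ℤ, m ≠ 0 → e ^ m ≠ 1

/-- `Rad(e)`: the subgroup generated by the elements which have a nontrivial power in common with
`e` -/
def Rad {G : Type} [Group G] (e : G) : Subgroup G :=
  Subgroup.closure {x | ∃ p q : ℤ, p ≠ 0 ∧ q ≠ 0 ∧ x ^ p = e ^ q}

/-- `Com(e)`: the commensurator of the subgroup generated by `e` -/
def Com {G : Type} [Group G] (e : G) : Subgroup G := Pool.Agent.E14.RE.Kom e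

/-- the elements of `Com(e)` -/
theorem mem_Com {G : Type} [Group G] (e k : G) :
    k ∈ Com e ↔ ∃ p q : ℤ, p ≠ 0 ∧ q ≠ 0 ∧ k * e ^ p * k⁻¹ = e ^ q := Iff.rfl

/-- the group `K` and the groups `Z(e) ⧸ ⟨e⟩` are in `C` -/
structure Central (C : ∀ (G : Type) [Group G], Prop) (K : Type) [Group K] : Prop where
  mem : C K
  cen : ∀ e : K, InfiniteOrder e →
    QuotIn C ((Subgroup.zpowers e).subgroupOf (Subgroup.centralizer {e}))

/-- the condition on the commensurator of `e` -/
def TameAt (C : ∀ (G : Type) [Group G], Prop) {K : Type} [Group K] (e : K) : Prop :=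
  QuotIn C ((Rad e).subgroupOf (Com e)) ∧ ∀ m : ℤ, m ≠ 0 → e ^ m ∉ ⁅Rad e, Rad e⁆

/-- the class of the vertex groups -/
def Tame (C : ∀ (G : Type) [Group G], Prop) (K : Type) [Group K] : Prop :=
  Central C K ∧ ∀ e : K, InfiniteOrder e → TameAt C e

/-- `x` is balanced in `G` -/
def Balanced {G : Type} [Group G] (x : G) : Prop :=
  ∀ (g : G) (p q : ℤ), p ≠ 0 → q ≠ 0 → g * x ^ p * g⁻¹ = x ^ q → q = p ∨ q = -p

/-- an action without inversions on a tree such that the edge stabilizers have cyclic subgroups of
finite index -/
structure VcTree (G : Type) {V : Type} [Group G] [MulAction G V] (T : SimpleGraph V) : Prop where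
  isTree : T.IsTree
  adj : ∀ (g : G) (v w : V), T.Adj v w → T.Adj (g • v) (g • w)
  noInv : ∀ (g : G) (v w : V), T.Adj v w → ¬ (g • v = w ∧ g • w = v)
  edge : ∀ v w, T.Adj v w → ∃ z ∈ MulAction.stabilizer G v ⊓ MulAction.stabilizer G w,
    (Subgroup.zpowers z).relIndex (MulAction.stabilizer G v ⊓ MulAction.stabilizer G w) ≠ 0

/-- virtually solvable -/
def VirtSolvable (G : Type) [Group G] : Prop :=
  ∃ A : Subgroup G, A.FiniteIndex ∧ Group.IsSolvable A

/-- virtually abelian -/
def VirtAbelian (G : Type) [Group G] : Prop :=
  ∃ A : Subgroup G, A.FiniteIndex ∧ ∀ x ∈ A, ∀ y ∈ A, x * y = y * x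

/-- locally nilpotent -/
def LocNilpotent (G : Type) [Group G] : Prop := ∀ H : Subgroup G, H.FG → Group.IsNilpotent H

/-- roots are unique -/
def UniqueRoots (G : Type) [Group G] : Prop :=
  ∀ (x y : G) (n : ℤ), n ≠ 0 → x ^ n = y ^ n → x = y

section aux

variable {C : ∀ (G : Type) [Group G], Prop} {K : Type} [Group K]

theorem cen_iff {e : K} :
    QuotIn C ((Subgroup.zpowers e).subgroupOf (Subgroup.centralizer {e})) ↔
      Pool.Agent.E14.RE.Cen C e := by
  constructor
  · rintro ⟨P, _, f, hP, hf⟩
    exact ⟨P, _, f, hP, fun x => by
      rw [← MonoidHom.mem_ker, hf]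
      exact Subgroup.mem_subgroupOf⟩
  · rintro ⟨P, _, f, hP, hf⟩
    refine ⟨P, _, f, hP, ?_⟩
    ext x
    rw [MonoidHom.mem_ker, Subgroup.mem_subgroupOf]
    exact hf x

theorem quot_iff {e : K} : QuotIn C ((Rad e).subgroupOf (Com e)) ↔ Pool.Agent.E14.RE.Qe C e := by
  constructor
  · rintro ⟨P, _, f, hP, hf⟩
    have h4 : ∀ x, x ∈ f.ker ↔ x ∈ (Rad e).subgroupOf (Com e) := fun x => by rw [hf]
    exact ⟨P, _, f, hP, h4⟩
  · rintro ⟨P, _, f, hP, hf⟩
    refine ⟨P, _, f, hP, ?_⟩
    ext x
    rw [MonoidHom.mem_ker, Subgroup.mem_subgroupOf]
    exact hf x

theorem at_iff {e : K} :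
    TameAt C e ↔ Pool.Agent.E14.RE.Qe C e ∧ Pool.Agent.E14.RE.Ht e :=
  ⟨fun h => ⟨quot_iff.1 h.1, Pool.Agent.E14.RE.Ht.of_notMem h.2⟩,
    fun h => ⟨quot_iff.2 h.1, fun _ hm => h.2.notMem hm⟩⟩

theorem central_iff : Central C K ↔ Pool.Agent.E14.RE.TB C K :=
  ⟨fun h => ⟨h.mem, fun e he => cen_iff.1 (h.cen e he)⟩,
    fun h => ⟨h.mem, fun e he => cen_iff.2 (h.cen e he)⟩⟩

theorem tame_iff : Tame C K ↔ Pool.Agent.E14.RE.TV C K :=
  ⟨fun h => ⟨⟨h.1.mem, fun e he => (at_iff.1 (h.2 e he)).1, fun e he => (at_iff.1 (h.2 e he)).2⟩,
      (central_iff.1 h.1).cen⟩,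
    fun h => ⟨central_iff.2 ⟨h.tame.mem, h.cen⟩, fun e he =>
      at_iff.2 ⟨h.tame.quot e he, h.tame.char e he⟩⟩⟩

end aux

/-- Let `C` be a class of groups with the closure properties `ClosedE C` and `AcylF C` which contains the
metabelian groups.
(1) Let `G` act on a tree without inversions and with virtually cyclic edge stabilizers. If the vertex
stabilizers are in `Tame C`, then so is `G`.
(2) If the vertex stabilizers are in `Central C`, and all elements `x` of infinite order of the edge
stabilizers are balanced in `G` or satisfy the condition `TameAt` in the vertex stabilizers which contain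
powers of `x`, then `G` is in `Central C`.
(3) Locally nilpotent groups, virtually abelian groups and virtually solvable groups with unique roots are
in `Tame C`.
(4) A group in `C` is in `Tame C` if the groups `Com(e)` for the elements of infinite order are contained
in subgroups in `Tame C`.
(5) Virtually solvable groups are in `Central C`.
(6) A group in `C` is in `Central C` if the centralizers of the elements of infinite order are contained
in subgroups in `Central C`.
(7) A group with a subgroup of finite index in `Central C` is in `Central C`. -/
theorem result (C : ∀ (G : Type) [Group G], Prop) (hC : ClosedE C)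
    (hM : ∀ (G : Type) [Group G], derivedSeries G 2 = ⊥ → C G) (hA : AcylF C) :
    (∀ (G V : Type) [Group G] [MulAction G V] (T : SimpleGraph V), VcTree G T →
      (∀ v : V, Tame C ↥(MulAction.stabilizer G v)) → Tame C G) ∧
    (∀ (G V : Type) [Group G] [MulAction G V] (T : SimpleGraph V), VcTree G T →
      (∀ v : V, Central C ↥(MulAction.stabilizer G v)) →
      (∀ v u, T.Adj v u → ∀ x : G, x • v = v → x • u = u → InfiniteOrder x →
        Balanced x ∨ ∀ (w : V) (m : ℤ) (hw : x ^ m • w = w), m ≠ 0 →
          TameAt C (⟨x ^ m, hw⟩ : MulAction.stabilizer G w)) → Central C G) ∧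
    (∀ (G : Type) [Group G], LocNilpotent G ∨ VirtAbelian G ∨ (VirtSolvable G ∧ UniqueRoots G) →
      Tame C G) ∧
    (∀ (G : Type) [Group G], C G → (∀ e : G, InfiniteOrder e →
      ∃ P : Subgroup G, Com e ≤ P ∧ Tame C P) → Tame C G) ∧
    (∀ (G : Type) [Group G], VirtSolvable G → Central C G) ∧
    (∀ (G : Type) [Group G], C G → (∀ e : G, InfiniteOrder e →
      ∃ P : Subgroup G, Subgroup.centralizer {e} ≤ P ∧ Central C P) → Central C G) ∧
    (∀ (G : Type) [Group G] (A : Subgroup G), A.FiniteIndex → Central C A → Central C G) := by
  refine ⟨?_, ?_, ?_, ?_, ?_, ?_, ?_⟩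
  · intro G V _ _ T hT hV
    rw [tame_iff]
    exact Pool.Agent.E14.RE.tv_tree hC hM hA (T := T) ⟨hT.isTree, hT.adj, hT.noInv⟩
      (fun v => tame_iff.1 (hV v)) hT.edge
  · intro G V _ _ T hT hV hb
    rw [central_iff]
    refine Pool.Agent.E14.RE.tb_tree hC hM hA (T := T) ⟨hT.isTree, hT.adj, hT.noInv⟩
      (fun v => central_iff.1 (hV v)) hT.edge fun v u hvu x hx hio => ?_
    rcases hb v u hvu x hx.1 hx.2 hio with h | h
    · exact Or.inl h
    · exact Or.inr fun w m hw hm => at_iff.1 (h w m hw hm)
  · rintro G _ (h | h | ⟨h, h'⟩)
    · exact tame_iff.2 (Pool.Agent.E14.RE.LN.tv hC hM h)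
    · exact tame_iff.2 (Pool.Agent.E14.RE.VAb.tv hC hM h)
    · exact tame_iff.2 (Pool.Agent.E14.RE.VSo.tv hC hM h fun e he =>
        Pool.Agent.E14.RE.UR.ht h' he)
  · intro G _ hG h
    refine tame_iff.2 (Pool.Agent.E14.RE.tv_local hG fun e he => ?_)
    obtain ⟨P, hP, hPt⟩ := h e he
    exact ⟨P, hP, tame_iff.1 hPt⟩
  · intro G _ h
    exact central_iff.2 (Pool.Agent.E14.RE.tb_vso hC hM h)
  · intro G _ hG h
    refine central_iff.2 (Pool.Agent.E14.RE.tb_local hG fun e he => ?_)
    obtain ⟨P, hP, hPt⟩ := h e he
    exact ⟨P, hP, central_iff.1 hPt⟩
  · intro G _ A hA' h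
    exact central_iff.2 (Pool.Agent.E14.RE.tb_fi hC A hA' (central_iff.1 h))

end Pool.Agent.Results.MP_6374fb_al.VirtuallyCyclicSplittings
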